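import Pool.Agent.H44.EHN.Stmts

/-! Row CNT of board ehn: one `m` serves few primes. -/

set_option autoImplicit false

open Classical

namespace EHN

theorem cnt_thm : CNTStmt := by
  intro Q T B w hB hQ hT hd
  have hsub : Q ⊆ T.biUnion (fun m => Q.filter (fun q => q ∣ m)) := by
    intro q hq
    obtain ⟨m, hm, hqm⟩ := hd q hq
    exact Finset.mem_biUnion.2 ⟨m, hm, Finset.mem_filter.2 ⟨hq, hqm⟩⟩
  have hone : ∀ m ∈ T, (Q.filter (fun q => q ∣ m)).card ≤ w := by
    intro m hm
    obtain ⟨h1, h2⟩ := hT m hm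
    have hdvd : (∏ q ∈ Q.filter (fun q => q ∣ m), q) ∣ m :=
      Finset.prod_primes_dvd m
        (fun q hq => (hQ q (Finset.mem_filter.1 hq).1).1.prime)
        (fun q hq => (Finset.mem_filter.1 hq).2)
    have hle : (∏ q ∈ Q.filter (fun q => q ∣ m), q) ≤ m := Nat.le_of_dvd h1 hdvd
    have hpow : B ^ (Q.filter (fun q => q ∣ m)).card ≤ ∏ q ∈ Q.filter (fun q => q ∣ m), q := by
      rw [← Finset.prod_const]
      exact Finset.prod_le_prod' (fun q hq => (hQ q (Finset.mem_filter.1 hq).1).2)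
    have hlt : B ^ (Q.filter (fun q => q ∣ m)).card < B ^ w := lt_of_le_of_lt (hpow.trans hle) h2
    exact ((Nat.pow_lt_pow_iff_right (by omega)).1 hlt).le
  calc Q.card ≤ (T.biUnion (fun m => Q.filter (fun q => q ∣ m))).card := Finset.card_le_card hsub
    _ ≤ T.card * w := Finset.card_biUnion_le_card_mul _ _ _ hone
    _ = w * T.card := mul_comm _ _

end EHN
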